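import Pool.Agent.U29.DZ.Stm
import Pool.Agent.U97.RP.WC

/-!
Project DZ (helper29), package WCx: worst case bounds of the killed annealed chain, weights which
depend on the position.
-/

set_option autoImplicit false

namespace Pool.Agent.U454.DZ

open Finset Pool.Agent.U762.RP Pool.Agent.U29.DZ Pool.Agent.U97.RP

theorem Qx_nonneg {d : ℕ} {m r : ℤ → ℤ} {w : ℤ → ℤ → ℝ} (hw : ∀ x u, 0 ≤ w x u) {B : ℕ} {M Y : ℝ}
    {F : ℤ → ℝ} (hF : ∀ x, 0 ≤ F x) (x : ℤ) : 0 ≤ Qx d m r w B M Y F x := by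
  unfold Qx
  split_ifs
  · exact sum_nonneg fun u _ => mul_nonneg (hw x u) (hF _)
  · exact le_rfl

theorem iterx_nonneg {d : ℕ} {m r : ℤ → ℤ} {w : ℤ → ℤ → ℝ} (hw : ∀ x u, 0 ≤ w x u) {B : ℕ}
    {M Y θ : ℝ} (k : ℕ) : ∀ x, 0 ≤ (Qx d m r w B M Y)^[k] (V M θ) x := by
  induction k with
  | zero => exact fun x => V_nonneg x
  | succ k ih =>
    intro x
    rw [Function.iterate_succ_apply']
    exact Qx_nonneg hw ih x

theorem t_WCx : S_AVGx → S_WCx := by
  intro hAVG d m r hrel θ ζ hθ0 hθ1 hζ B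
  obtain ⟨M1, hM1, h1⟩ := hAVG d m r hrel θ ζ hθ0 hθ1 hζ B
  have hd : 0 < d := by
    have := hrel.two_le
    omega
  have hdR : (0 : ℝ) < d := by exact_mod_cast hd
  refine ⟨max M1 (((∑ j ∈ range d, |(r (j : ℤ) : ℝ)|) + d * B) / ζ),
    hM1.trans (le_max_left _ _), ?_⟩
  intro M hM Y η R ε K w hη0 hW hR1 hε0 hε1 hKB hR hmass
  have hw0 := hW.nonneg
  have hMM1 : M1 ≤ M := (le_max_left _ _).trans hM
  have hMη : (∑ j ∈ range d, |(r (j : ℤ) : ℝ)|) + d * B ≤ M * ζ := by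
    have := (le_max_right _ _).trans hM
    rwa [div_le_iff₀ hζ] at this
  obtain ⟨ρ, hρ⟩ : ∃ ρ : ℝ, ρ = (∑ j ∈ range d, fac d m ζ j ^ θ) / d := ⟨_, rfl⟩
  rw [← hρ]
  have hρ0 : 0 ≤ ρ := by
    rw [hρ]
    exact div_nonneg (sum_nonneg fun j hj => Real.rpow_nonneg (fac_pos hrel hζ hj).le _) hdR.le
  have hR0 : 0 ≤ R := by linarith
  have hε1' : 0 ≤ 1 - ε := by linarith
  have hdK : (0 : ℝ) < (d : ℝ) ^ K := by positivity
  have hH0 : ∀ k : ℕ, 0 ≤ g ε R ρ k + η * (k : ℝ) ^ 2 * R ^ k := by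
    intro k
    have := g_nonneg hε0 hε1 hR0 hρ0 k
    positivity
  intro k
  induction k with
  | zero =>
    intro _ x
    show V M θ x ≤ (1 + η * ((0 : ℕ) : ℝ) ^ 2 * R ^ 0) * |(x : ℝ)| ^ θ
    have e1 : (1 + η * ((0 : ℕ) : ℝ) ^ 2 * R ^ 0) = 1 := by norm_num
    rw [e1, one_mul]
    unfold V
    split_ifs
    · exact Real.rpow_nonneg (abs_nonneg _) _
    · exact le_rfl
  | succ k ih =>
    intro hk x
    have ih' := ih (by omega)
    have hgk := hH0 k
    rw [Function.iterate_succ_apply']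
    by_cases hx : M ≤ |(x : ℝ)| ∧ |(x : ℝ)| < Y
    · have hx' : M ≤ |(x : ℝ)| := hx.1
      have hvw : ∀ u : ℤ, 0 ≤ w x u - vv d K ε u := by
        intro u
        unfold vv
        split_ifs with h
        · linarith [hmass x u hx.1 hx.2 h.1 h.2]
        · linarith [hw0 x u]
      have hvsum : ∑ u ∈ Icc (-(B : ℤ)) B, (w x u - vv d K ε u) ≤ 1 - ε := by
        rw [sum_sub_distrib]
        have h2 := sum_vv d K B hKB ε (fun _ => 1)
        simp only [mul_one, sum_const, card_range, nsmul_eq_mul, Nat.cast_pow] at h2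
        rw [h2, div_mul_cancel₀ _ hdK.ne']
        linarith [hW.sum_le x]
      obtain ⟨F, hF⟩ : ∃ F : ℤ → ℝ, F = (Qx d m r w B M Y)^[k] (V M θ) := ⟨_, rfl⟩
      have hF0 : ∀ y, 0 ≤ F y := by
        rw [hF]
        exact iterx_nonneg hw0 k
      rw [← hF] at ih' ⊢
      obtain ⟨z, hz⟩ : ∃ z : ℝ, z = fac d m ζ (x % d).toNat * |(x : ℝ)| := ⟨_, rfl⟩
      have hjr : (x % d).toNat ∈ range d := by
        rw [mem_range]
        have h3 : 0 ≤ x % d := Int.emod_nonneg _ (by exact_mod_cast hd.ne')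
        have h4 : x % d < d := Int.emod_lt_of_pos _ (by exact_mod_cast hd)
        omega
      have hfp := fac_pos hrel hζ hjr
      have hz0 : 0 ≤ z := by
        rw [hz]
        positivity
      have hTz : ∀ u : ℤ, |u| ≤ (B : ℤ) → |((T d m r x + u : ℤ) : ℝ)| ≤ z := by
        intro u hu
        rw [hz]
        exact T_bound hrel hζ hMη x hx' u hu
      have hzR : z ^ θ ≤ R * |(x : ℝ)| ^ θ := by
        rw [hz, Real.mul_rpow hfp.le (abs_nonneg _)]
        exact mul_le_mul_of_nonneg_right (hR _ hjr) (Real.rpow_nonneg (abs_nonneg _) _)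
      have hzθ : 0 ≤ z ^ θ := Real.rpow_nonneg hz0 _
      -- the uniform part
      have hA : ∑ u ∈ Icc (-(B : ℤ)) B, vv d K ε u * F (T d m r x + u) ≤
          ε * (ρ ^ k + η * k * R ^ k) * z ^ θ := by
        rw [sum_vv d K B hKB ε (fun u => F (T d m r x + u))]
        have h2 := h1 M hMM1 Y η R w hη0 hW hR1 hR k K (by omega) 1 (T d m r x)
          isCoprime_one_left z hz0 (by
          intro u hu
          rw [one_mul]
          apply hTz
          rw [abs_of_nonneg (by positivity)]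
          exact_mod_cast (hu.le.trans hKB))
        simp only [one_mul] at h2
        rw [← hF, ← hρ] at h2
        calc ε / (d : ℝ) ^ K * ∑ u ∈ range (d ^ K), F (T d m r x + (u : ℤ))
            ≤ ε / (d : ℝ) ^ K * ((d : ℝ) ^ K * (ρ ^ k + η * k * R ^ k) * z ^ θ) :=
              mul_le_mul_of_nonneg_left h2 (by positivity)
          _ = ε * (ρ ^ k + η * k * R ^ k) * z ^ θ := by
              field_simp
      -- the rest
      have hB : ∑ u ∈ Icc (-(B : ℤ)) B, (w x u - vv d K ε u) * F (T d m r x + u) ≤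
          (1 - ε) * ((g ε R ρ k + η * (k : ℝ) ^ 2 * R ^ k) * z ^ θ) := by
        calc ∑ u ∈ Icc (-(B : ℤ)) B, (w x u - vv d K ε u) * F (T d m r x + u)
            ≤ ∑ u ∈ Icc (-(B : ℤ)) B, (w x u - vv d K ε u) *
                ((g ε R ρ k + η * (k : ℝ) ^ 2 * R ^ k) * z ^ θ) := by
              refine sum_le_sum fun u hu => mul_le_mul_of_nonneg_left ?_ (hvw u)
              refine (ih' _).trans (mul_le_mul_of_nonneg_left ?_ hgk)
              refine Real.rpow_le_rpow (abs_nonneg _) (hTz u ?_) hθ0.le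
              rw [mem_Icc] at hu
              exact abs_le.2 hu
          _ = (∑ u ∈ Icc (-(B : ℤ)) B, (w x u - vv d K ε u)) *
                ((g ε R ρ k + η * (k : ℝ) ^ 2 * R ^ k) * z ^ θ) := by
              rw [sum_mul]
          _ ≤ (1 - ε) * ((g ε R ρ k + η * (k : ℝ) ^ 2 * R ^ k) * z ^ θ) :=
              mul_le_mul_of_nonneg_right hvsum (mul_nonneg hgk hzθ)
      have hQ : Qx d m r w B M Y F x =
          ∑ u ∈ Icc (-(B : ℤ)) B, vv d K ε u * F (T d m r x + u) +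
          ∑ u ∈ Icc (-(B : ℤ)) B, (w x u - vv d K ε u) * F (T d m r x + u) := by
        unfold Qx
        rw [if_pos hx, ← sum_add_distrib]
        exact sum_congr rfl fun u _ => by ring
      rw [hQ]
      have hc : 0 ≤ ε * (ρ ^ k + η * k * R ^ k) +
          (1 - ε) * (g ε R ρ k + η * (k : ℝ) ^ 2 * R ^ k) := by positivity
      have hRk : 0 ≤ η * R ^ (k + 1) := by positivity
      have hkk : ε * k + (1 - ε) * (k : ℝ) ^ 2 ≤ ((k : ℝ) + 1) ^ 2 := by
        have hk0 : (0 : ℝ) ≤ k := Nat.cast_nonneg k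
        nlinarith [mul_nonneg hε0.le (sq_nonneg (k : ℝ)), mul_nonneg hε1' hk0]
      have hlast : R * (ε * (ρ ^ k + η * k * R ^ k) +
          (1 - ε) * (g ε R ρ k + η * (k : ℝ) ^ 2 * R ^ k)) ≤
          g ε R ρ (k + 1) + η * ((k + 1 : ℕ) : ℝ) ^ 2 * R ^ (k + 1) := by
        have e1 : g ε R ρ (k + 1) = R * (ε * ρ ^ k + (1 - ε) * g ε R ρ k) := rfl
        rw [e1]
        have e2 : R * (ε * (ρ ^ k + η * k * R ^ k) +
          (1 - ε) * (g ε R ρ k + η * (k : ℝ) ^ 2 * R ^ k)) =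
          R * (ε * ρ ^ k + (1 - ε) * g ε R ρ k) +
            (ε * k + (1 - ε) * (k : ℝ) ^ 2) * (η * R ^ (k + 1)) := by ring
        rw [e2]
        have e3 := mul_le_mul_of_nonneg_right hkk hRk
        push_cast
        linarith
      calc _ ≤ ε * (ρ ^ k + η * k * R ^ k) * z ^ θ +
            (1 - ε) * ((g ε R ρ k + η * (k : ℝ) ^ 2 * R ^ k) * z ^ θ) := add_le_add hA hB
        _ = (ε * (ρ ^ k + η * k * R ^ k) +
            (1 - ε) * (g ε R ρ k + η * (k : ℝ) ^ 2 * R ^ k)) * z ^ θ := by ring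
        _ ≤ (ε * (ρ ^ k + η * k * R ^ k) +
            (1 - ε) * (g ε R ρ k + η * (k : ℝ) ^ 2 * R ^ k)) * (R * |(x : ℝ)| ^ θ) :=
            mul_le_mul_of_nonneg_left hzR hc
        _ = R * (ε * (ρ ^ k + η * k * R ^ k) +
            (1 - ε) * (g ε R ρ k + η * (k : ℝ) ^ 2 * R ^ k)) * |(x : ℝ)| ^ θ := by ring
        _ ≤ _ := mul_le_mul_of_nonneg_right hlast (Real.rpow_nonneg (abs_nonneg _) _)
    · have : Qx d m r w B M Y ((Qx d m r w B M Y)^[k] (V M θ)) x = 0 := by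
        unfold Qx
        rw [if_neg hx]
      rw [this]
      exact mul_nonneg (hH0 _) (Real.rpow_nonneg (abs_nonneg _) _)

end Pool.Agent.U454.DZ
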